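import Mathlib

/-!
# Monochromatic convex polygons in two-coloured point sets: `log g(p) = O(p ^ 2 log p)`

For `p ≥ 3` we show `g(p) ≤ (4 p - 10) ^ (2 (p - 2) ^ 2 + 1)`, instead of the doubly exponential bound
`g(p) ≤ R(ES(p), ES(p))`.

Proof. Order the plane lexicographically. We pick points one by one, keeping a set `C` of candidates, all of them
to the right of the points picked so far. A picked point `u` has a colour `κ` (all pairs `{u, w}` with `w ∈ C` have
colour `κ`) and a label `(a, b)`: there are a cup with `a` points and a cap with `b` points ending in `u`, with all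
pairs of colour `κ`, which every point of `C` prolongs. The next point picked is the leftmost point `v` of `C`. A
point `w` of the rest of `C` gives the colour `κ` of `{v, w}` and the label `(α, β)` of `v` with respect to `w`;
turning `w` around `v` upwards increases `α` and decreases `β`, so there are at most `2 (2 (p - 2) - 1)` classes, and
we keep the largest one. The new label is not the label of an earlier point of colour `κ`, so after
`2 (p - 2) ^ 2` picks we are done.
-/

set_option autoImplicit false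

namespace Pool.Agent.Results.MP_6c3374_co.PolynomialExponent

open Finset

/-- The Euclidean plane. -/
abbrev Plane := EuclideanSpace ℝ (Fin 2)

/-- No three distinct points of `P` are collinear. -/
def GeneralPosition (P : Finset Plane) : Prop :=
  ∀ a ∈ P, ∀ b ∈ P, ∀ c ∈ P, a ≠ b → a ≠ c → b ≠ c → ¬ Collinear ℝ {a, b, c}

/-- Every point of `S` is a vertex of the convex hull of `S`: no point of `S` is in the convex hull of the
others. -/
def ConvexPosition (S : Finset Plane) : Prop :=
  ∀ x ∈ S, x ∉ convexHull ℝ ((S : Set Plane) \ {x})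

/-- `P`, with the colouring `c` of the pairs, contains `p` points in convex position with all pairs of the
same colour. -/
def HasMono (p : ℕ) (P : Finset Plane) (c : Sym2 Plane → Bool) : Prop :=
  ∃ S ⊆ P, S.card = p ∧ ConvexPosition S ∧ ∃ κ : Bool, ∀ x ∈ S, ∀ y ∈ S, x ≠ y → c s(x, y) = κ

/-- Every set of `n` points in general position, with any two-colouring of its pairs, contains `p` points in convex
position with all pairs of the same colour. -/
def Forces (p n : ℕ) : Prop :=
  ∀ P : Finset Plane, P.card = n → GeneralPosition P → ∀ c : Sym2 Plane → Bool, HasMono p P c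

/-- The least `n` such that every two-coloured set of `n` points in general position contains `p` points in convex
position with all pairs of the same colour. -/
noncomputable def g (p : ℕ) : ℕ := sInf {n | Forces p n}

/-! ### Orientations -/

/-- orientation determinant -/
noncomputable def det (a b c : Plane) : ℝ :=
  (b 0 - a 0) * (c 1 - a 1) - (b 1 - a 1) * (c 0 - a 0)

/-- lexicographic order -/
def L (a b : Plane) : Prop := a 0 < b 0 ∨ (a 0 = b 0 ∧ a 1 < b 1)

lemma det_rot (a b c : Plane) : det a b c = det b c a := by unfold det; ring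

lemma det_swap (a b c : Plane) : det a c b = - det a b c := by unfold det; ring

lemma L_trans {a b c : Plane} (h : L a b) (h' : L b c) : L a c := by
  unfold L at *
  rcases h with h | ⟨h, h1⟩ <;> rcases h' with h' | ⟨h', h1'⟩
  · left; linarith
  · left; linarith
  · left; linarith
  · right; exact ⟨h.trans h', h1.trans h1'⟩

lemma L_irrefl (a : Plane) : ¬ L a a := by
  unfold L
  rintro (h | ⟨_, h⟩) <;> exact lt_irrefl _ h

lemma L_ne {a b : Plane} (h : L a b) : a ≠ b := by
  rintro rfl; exact L_irrefl _ h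

lemma L_total {a b : Plane} (h : a ≠ b) : L a b ∨ L b a := by
  unfold L
  rcases lt_trichotomy (a 0) (b 0) with h1 | h1 | h1
  · exact Or.inl (Or.inl h1)
  · rcases lt_trichotomy (a 1) (b 1) with h2 | h2 | h2
    · exact Or.inl (Or.inr ⟨h1, h2⟩)
    · exfalso
      apply h
      ext i
      fin_cases i
      · exact h1
      · exact h2
    · exact Or.inr (Or.inr ⟨h1.symm, h2⟩)
  · exact Or.inr (Or.inl h1)

/-- transitivity of the slope order, for vectors pointing to the right -/
lemma cross_trans {σ x1 y1 x2 y2 x3 y3 : ℝ} (h1 : 0 < x1 ∨ (x1 = 0 ∧ 0 < y1))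
    (h2 : 0 < x2 ∨ (x2 = 0 ∧ 0 < y2)) (h3 : 0 < x3 ∨ (x3 = 0 ∧ 0 < y3)) (hσ : σ = 1 ∨ σ = -1)
    (a : 0 < σ * (x1 * y2 - y1 * x2)) (b : 0 < σ * (x2 * y3 - y2 * x3)) :
    0 < σ * (x1 * y3 - y1 * x3) := by
  rcases h2 with h2 | ⟨h2, h2'⟩
  · have key : x2 * (σ * (x1 * y3 - y1 * x3)) =
        x1 * (σ * (x2 * y3 - y2 * x3)) + x3 * (σ * (x1 * y2 - y1 * x2)) := by ring
    have hx1 : 0 ≤ x1 := by rcases h1 with h | ⟨h, _⟩ <;> linarith
    have hx3 : 0 ≤ x3 := by rcases h3 with h | ⟨h, _⟩ <;> linarith
    have hor : 0 < x1 ∨ 0 < x3 := by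
      by_contra hcon
      push Not at hcon
      have e1 : x1 = 0 := le_antisymm hcon.1 hx1
      have e3 : x3 = 0 := le_antisymm hcon.2 hx3
      subst e1 e3
      have hy1 : 0 < y1 := by
        rcases h1 with h | ⟨_, h⟩
        · exact absurd h (lt_irrefl _)
        · exact h
      have hy3 : 0 < y3 := by
        rcases h3 with h | ⟨_, h⟩
        · exact absurd h (lt_irrefl _)
        · exact h
      rcases hσ with rfl | rfl
      · nlinarith [mul_pos hy1 h2, mul_pos h2 hy3]
      · nlinarith [mul_pos hy1 h2, mul_pos h2 hy3]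
    have hpos : 0 < x2 * (σ * (x1 * y3 - y1 * x3)) := by
      rw [key]
      rcases hor with h | h
      · have := mul_pos h b
        have := mul_nonneg hx3 a.le
        linarith
      · have := mul_pos h a
        have := mul_nonneg hx1 b.le
        linarith
    exact (pos_iff_pos_of_mul_pos hpos).mp h2
  · subst h2
    exfalso
    have hx1 : 0 ≤ x1 := by rcases h1 with h | ⟨h, _⟩ <;> linarith
    have hx3 : 0 ≤ x3 := by rcases h3 with h | ⟨h, _⟩ <;> linarith
    have m1 := mul_nonneg hx1 h2'.le
    have m3 := mul_nonneg h2'.le hx3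
    rcases hσ with rfl | rfl
    · nlinarith
    · nlinarith

lemma L_vec {a b : Plane} (h : L a b) : 0 < b 0 - a 0 ∨ (b 0 - a 0 = 0 ∧ 0 < b 1 - a 1) := by
  rcases h with h | ⟨h, h'⟩
  · left; linarith
  · right; exact ⟨by linarith, by linarith⟩

/-- turning `w` around `v` -/
lemma turn {σ : ℝ} (hσ : σ = 1 ∨ σ = -1) {u v w w' : Plane} (huv : L u v) (hvw : L v w) (hvw' : L v w')
    (h1 : 0 < σ * det u v w) (h2 : 0 < σ * det v w w') : 0 < σ * det u v w' := by
  have := cross_trans (σ := σ) (x1 := v 0 - u 0) (y1 := v 1 - u 1) (x2 := w 0 - v 0) (y2 := w 1 - v 1)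
    (x3 := w' 0 - v 0) (y3 := w' 1 - v 1) (L_vec huv) (L_vec hvw) (L_vec hvw') hσ
    (by unfold det at h1; convert h1 using 1; ring) (by unfold det at h2; convert h2 using 1)
  unfold det
  convert this using 1
  ring

/-- prolonging a cup or cap -/
lemma prolong {σ : ℝ} (hσ : σ = 1 ∨ σ = -1) {a b c d : Plane} (hab : L a b) (hbc : L b c) (hcd : L c d)
    (h1 : 0 < σ * det a b c) (h2 : 0 < σ * det b c d) : 0 < σ * det a c d := by
  have := cross_trans (σ := σ) (x1 := b 0 - a 0) (y1 := b 1 - a 1) (x2 := c 0 - b 0) (y2 := c 1 - b 1)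
    (x3 := d 0 - c 0) (y3 := d 1 - c 1) (L_vec hab) (L_vec hbc) (L_vec hcd) hσ
    (by unfold det at h1; convert h1 using 1; ring) (by unfold det at h2; convert h2 using 1; ring)
  unfold det at h1 h2 ⊢
  have e : σ * ((c 0 - a 0) * (d 1 - a 1) - (c 1 - a 1) * (d 0 - a 0)) =
      σ * ((b 0 - a 0) * (d 1 - c 1) - (b 1 - a 1) * (d 0 - c 0)) +
      σ * ((c 0 - b 0) * (d 1 - b 1) - (c 1 - b 1) * (d 0 - b 0)) := by ring
  rw [e]
  linarith

lemma collinear_of_det {a b c : Plane} (hab : a ≠ b) (h : det a b c = 0) : Collinear ℝ {a, b, c} := by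
  rw [collinear_iff_of_mem (p₀ := a) (by simp)]
  refine ⟨b - a, ?_⟩
  unfold det at h
  have hc : ∃ r : ℝ, c = r • (b - a) +ᵥ a := by
    by_cases h0 : b 0 - a 0 = 0
    · have h1 : b 1 - a 1 ≠ 0 := by
        intro h1
        apply hab
        ext i
        fin_cases i
        · change a 0 = b 0; linarith
        · change a 1 = b 1; linarith
      refine ⟨(c 1 - a 1) / (b 1 - a 1), ?_⟩
      ext i
      fin_cases i
      · simp
        rw [h0]
        rw [h0] at h
        have : (b 1 - a 1) * (c 0 - a 0) = 0 := by linarith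
        rcases mul_eq_zero.mp this with h' | h'
        · exact absurd h' h1
        · linarith
      · simp
        field_simp
        ring
    · refine ⟨(c 0 - a 0) / (b 0 - a 0), ?_⟩
      ext i
      fin_cases i
      · simp
        field_simp
        ring
      · simp
        field_simp
        linarith
  intro p hp
  simp only [Set.mem_insert_iff, Set.mem_singleton_iff] at hp
  rcases hp with rfl | rfl | rfl
  · exact ⟨0, by simp⟩
  · exact ⟨1, by simp⟩
  · exact hc

/-! ### Cups and caps are in convex position -/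

/-- all triples of `T` (from left to right) have orientation `σ` -/
def Mono3 (σ : ℝ) (T : Finset Plane) : Prop :=
  ∀ x ∈ T, ∀ y ∈ T, ∀ z ∈ T, L x y → L y z → 0 < σ * det x y z

lemma exists_Lmin (T : Finset Plane) (h : T.Nonempty) : ∃ v ∈ T, ∀ w ∈ T, w ≠ v → L v w := by
  obtain ⟨v, hv, hmin⟩ := T.exists_min_image (fun a : Plane => toLex (a 0, a 1)) h
  refine ⟨v, hv, fun w hw hne => ?_⟩
  rcases L_total hne.symm with h' | h'
  · exact h'
  · exfalso
    have h1 := hmin w hw
    have h2 : toLex (w 0, w 1) < toLex (v 0, v 1) := by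
      rw [Prod.Lex.toLex_lt_toLex]
      exact h'
    exact absurd (lt_of_le_of_lt h1 h2) (lt_irrefl _)

lemma exists_edge {σ : ℝ} {T : Finset Plane} (h : Mono3 σ T) {x : Plane} (hx : x ∈ T)
    (hne : (T.erase x).Nonempty) :
    ∃ y ∈ T, y ≠ x ∧ ∀ z ∈ T, z ≠ x → z ≠ y → 0 < σ * det x y z := by
  classical
  by_cases hmax : ∃ z ∈ T, L x z
  · obtain ⟨z0, hz0, hxz0⟩ := hmax
    obtain ⟨y, hy, hmin⟩ := exists_Lmin (T.filter (fun z => L x z)) ⟨z0, by simp [hz0, hxz0]⟩
    rw [mem_filter] at hy
    refine ⟨y, hy.1, (L_ne hy.2).symm, fun z hz hzx hzy => ?_⟩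
    rcases L_total hzx with h' | h'
    · rw [← det_rot]
      exact h z hz x hx y hy.1 h' hy.2
    · exact h x hx y hy.1 z hz hy.2 (hmin z (by simp [hz, h']) hzy)
  · push Not at hmax
    obtain ⟨y, hy, hmin⟩ := exists_Lmin T ⟨x, hx⟩
    have hyx : y ≠ x := by
      rintro rfl
      obtain ⟨z, hz⟩ := hne
      rw [mem_erase] at hz
      exact hmax z hz.2 (hmin z hz.2 hz.1)
    refine ⟨y, hy, hyx, fun z hz hzx hzy => ?_⟩
    rw [det_rot]
    refine h y hy z hz x hx (hmin z hz hzy) ?_
    rcases L_total hzx with h' | h'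
    · exact h'
    · exact absurd h' (hmax z hz)

lemma convex_half (σ : ℝ) (x y : Plane) : Convex ℝ ({z : Plane | 0 < σ * det x y z} ∪ {y}) := by
  have hy : σ * det x y y = 0 := by unfold det; ring
  intro a ha b hb s t hs ht hst
  have hf : σ * det x y (s • a + t • b) = s * (σ * det x y a) + t * (σ * det x y b) := by
    unfold det
    simp only [PiLp.add_apply, PiLp.smul_apply, smul_eq_mul]
    have e0 : s * a 0 + t * b 0 - x 0 = s * (a 0 - x 0) + t * (b 0 - x 0) := by
      linear_combination (x 0) * hst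
    have e1 : s * a 1 + t * b 1 - x 1 = s * (a 1 - x 1) + t * (b 1 - x 1) := by
      linear_combination (x 1) * hst
    rw [e0, e1]
    ring
  simp only [Set.union_singleton, Set.mem_insert_iff, Set.mem_ofPred_eq] at ha hb ⊢
  rw [hf]
  rcases ha with rfl | ha <;> rcases hb with rfl | hb
  · left
    rw [← add_smul, hst, one_smul]
  · rw [hy]
    rcases ht.eq_or_lt with h0 | h0
    · left
      rw [← h0, zero_smul, add_zero]
      rw [← h0, add_zero] at hst
      rw [hst, one_smul]
    · right
      have := mul_pos h0 hb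
      linarith
  · rw [hy]
    rcases hs.eq_or_lt with h0 | h0
    · left
      rw [← h0, zero_smul, zero_add]
      rw [← h0, zero_add] at hst
      rw [hst, one_smul]
    · right
      have := mul_pos h0 ha
      linarith
  · right
    rcases hs.eq_or_lt with h0 | h0
    · rw [← h0, zero_add] at hst
      rw [← h0, hst]
      linarith
    · have h1 := mul_pos h0 ha
      have h2 := mul_nonneg ht hb.le
      linarith

lemma convexPosition_of_mono3 {σ : ℝ} {T : Finset Plane} (h : Mono3 σ T) : ConvexPosition T := by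
  classical
  intro x hx hmem
  rcases (T.erase x).eq_empty_or_nonempty with he | hne
  · have : ((T : Set Plane) \ {x}) = ∅ := by
      have := congrArg (fun s : Finset Plane => (s : Set Plane)) he
      simpa using this
    rw [this, convexHull_empty] at hmem
    exact hmem
  · obtain ⟨y, hy, hyx, hall⟩ := exists_edge h hx hne
    have hsub : ((T : Set Plane) \ {x}) ⊆ {z : Plane | 0 < σ * det x y z} ∪ {y} := by
      intro z hz
      by_cases hzy : z = y
      · right; exact hzy
      · left
        exact hall z hz.1 hz.2 hzy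
    have := convexHull_min hsub (convex_half σ x y) hmem
    rcases this with h' | h'
    · have e : σ * det x y x = 0 := by unfold det; ring
      rw [Set.mem_ofPred_eq, e] at h'
      exact lt_irrefl _ h'
    · exact hyx h'.symm

/-! ### Cups and caps prolonged by all candidates -/

/-- `S` is a cup (`σ = 1`) or a cap (`σ = -1`) with last point `u` and all pairs of colour `κ`, and every point of
`C` prolongs it, with pairs of colour `κ`. -/
structure Good (c : Sym2 Plane → Bool) (P : Finset Plane) (σ : ℝ) (κ : Bool) (C S : Finset Plane) (u : Plane) :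
    Prop where
  sub : S ⊆ P
  mem : u ∈ S
  last : ∀ x ∈ S, x = u ∨ L x u
  left : ∀ x ∈ S, ∀ w ∈ C, L x w
  col : ∀ x ∈ S, ∀ y ∈ S, x ≠ y → c s(x, y) = κ
  colC : ∀ x ∈ S, ∀ w ∈ C, c s(x, w) = κ
  tri : Mono3 σ S
  triC : ∀ x ∈ S, ∀ y ∈ S, ∀ w ∈ C, L x y → 0 < σ * det x y w

variable {c : Sym2 Plane → Bool} {P : Finset Plane}

lemma Good.anti {σ : ℝ} {κ : Bool} {C C' S : Finset Plane} {u : Plane} (h : Good c P σ κ C S u)
    (hC : C' ⊆ C) : Good c P σ κ C' S u where
  sub := h.sub
  mem := h.mem
  last := h.last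
  left := fun x hx w hw => h.left x hx w (hC hw)
  col := h.col
  colC := fun x hx w hw => h.colC x hx w (hC hw)
  tri := h.tri
  triC := fun x hx y hy w hw => h.triC x hx y hy w (hC hw)

lemma Good.single {σ : ℝ} {κ : Bool} {C : Finset Plane} {v : Plane} (hv : v ∈ P)
    (hL : ∀ w ∈ C, L v w) (hc : ∀ w ∈ C, c s(v, w) = κ) : Good c P σ κ C {v} v where
  sub := by simpa using hv
  mem := by simp
  last := by intro x hx; left; simpa using hx
  left := by intro x hx w hw; rw [mem_singleton] at hx; rw [hx]; exact hL w hw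
  col := by
    intro x hx y hy hne
    rw [mem_singleton] at hx hy
    exact absurd (hx.trans hy.symm) hne
  colC := by intro x hx w hw; rw [mem_singleton] at hx; rw [hx]; exact hc w hw
  tri := by
    intro x hx y hy z hz hxy
    rw [mem_singleton] at hx hy
    rw [hx, hy] at hxy
    exact absurd hxy (L_irrefl _)
  triC := by
    intro x hx y hy z hz hxy
    rw [mem_singleton] at hx hy
    rw [hx, hy] at hxy
    exact absurd hxy (L_irrefl _)

lemma Good.extend {σ : ℝ} (hσ : σ = 1 ∨ σ = -1) {κ : Bool} {C C' S : Finset Plane} {u v : Plane}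
    (h : Good c P σ κ C S u) (hCP : C ⊆ P) (hv : v ∈ C) (hC : C' ⊆ C)
    (hL : ∀ w ∈ C', L v w) (hc : ∀ w ∈ C', c s(v, w) = κ) (ht : ∀ w ∈ C', 0 < σ * det u v w) :
    Good c P σ κ C' (insert v S) v ∧ v ∉ S := by
  have huv : L u v := h.left u h.mem v hv
  have hSv : ∀ x ∈ S, L x v := fun x hx => h.left x hx v hv
  have hvS : v ∉ S := fun hvS => L_irrefl v (hSv v hvS)
  refine ⟨?_, hvS⟩
  have htri : ∀ x ∈ S, ∀ w ∈ C', 0 < σ * det x v w := by
    intro x hx w hw
    rcases h.last x hx with rfl | hxu
    · exact ht w hw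
    · exact prolong hσ hxu huv (hL w hw) (h.triC x hx u h.mem v hv hxu) (ht w hw)
  constructor
  · intro x hx0
    rcases mem_insert.mp hx0 with rfl | hx
    · exact hCP hv
    · exact h.sub hx
  · simp
  · intro x hx0
    rcases mem_insert.mp hx0 with rfl | hx
    · left; rfl
    · right; exact hSv x hx
  · intro x hx0 w hw
    rcases mem_insert.mp hx0 with rfl | hx
    · exact hL w hw
    · exact h.left x hx w (hC hw)
  · intro x hx0 y hy0 hne
    rcases mem_insert.mp hx0 with rfl | hx <;> rcases mem_insert.mp hy0 with rfl | hy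
    · exact absurd rfl hne
    · rw [Sym2.eq_swap]; exact h.colC y hy _ hv
    · exact h.colC x hx _ hv
    · exact h.col x hx y hy hne
  · intro x hx0 w hw
    rcases mem_insert.mp hx0 with rfl | hx
    · exact hc w hw
    · exact h.colC x hx w (hC hw)
  · intro x hx0 y hy0 z hz0 hxy hyz
    rcases mem_insert.mp hx0 with rfl | hx
    · rcases mem_insert.mp hy0 with rfl | hy
      · exact absurd hxy (L_irrefl _)
      · exact absurd (L_trans hxy (hSv y hy)) (L_irrefl _)
    · rcases mem_insert.mp hy0 with rfl | hy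
      · rcases mem_insert.mp hz0 with rfl | hz
        · exact absurd hyz (L_irrefl _)
        · exact absurd (L_trans hyz (hSv z hz)) (L_irrefl _)
      · rcases mem_insert.mp hz0 with rfl | hz
        · exact h.triC x hx y hy _ hv hxy
        · exact h.tri x hx y hy z hz hxy hyz
  · intro x hx0 y hy0 w hw hxy
    rcases mem_insert.mp hx0 with rfl | hx
    · rcases mem_insert.mp hy0 with rfl | hy
      · exact absurd hxy (L_irrefl _)
      · exact absurd (L_trans hxy (hSv y hy)) (L_irrefl _)
    · rcases mem_insert.mp hy0 with rfl | hy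
      · exact htri x hx w hw
      · exact h.triC x hx y hy w (hC hw) hxy

/-- A long cup or cap which can be prolonged gives `p` points. -/
lemma Good.hasMono {σ : ℝ} {κ : Bool} {C S : Finset Plane} {u w : Plane} (h : Good c P σ κ C S u)
    (hw : w ∈ C) (hCP : C ⊆ P) {p : ℕ} (hp : S.card + 1 = p) : HasMono p P c := by
  have hwS : w ∉ S := fun hwS => L_irrefl w (h.left w hwS w hw)
  refine ⟨insert w S, ?_, ?_, ?_, κ, ?_⟩
  · intro x hx0
    rcases mem_insert.mp hx0 with rfl | hx
    · exact hCP hw
    · exact h.sub hx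
  · rw [card_insert_of_notMem hwS, hp]
  · apply convexPosition_of_mono3 (σ := σ)
    intro x hx0 y hy0 z hz0 hxy hyz
    rcases mem_insert.mp hx0 with rfl | hx
    · rcases mem_insert.mp hy0 with rfl | hy
      · exact absurd hxy (L_irrefl _)
      · exact absurd (L_trans hxy (h.left y hy _ hw)) (L_irrefl _)
    · rcases mem_insert.mp hy0 with rfl | hy
      · rcases mem_insert.mp hz0 with rfl | hz
        · exact absurd hyz (L_irrefl _)
        · exact absurd (L_trans hyz (h.left z hz _ hw)) (L_irrefl _)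
      · rcases mem_insert.mp hz0 with rfl | hz
        · exact h.triC x hx y hy _ hw hxy
        · exact h.tri x hx y hy z hz hxy hyz
  · intro x hx0 y hy0 hne
    rcases mem_insert.mp hx0 with rfl | hx <;> rcases mem_insert.mp hy0 with rfl | hy
    · exact absurd rfl hne
    · rw [Sym2.eq_swap]; exact h.colC y hy _ hw
    · exact h.colC x hx _ hw
    · exact h.col x hx y hy hne

/-! ### The state of the process -/

/-- `u` is a point of colour `κ` with label `l = (a, b)` with respect to `C`. -/
def Lab (c : Sym2 Plane → Bool) (P : Finset Plane) (κ : Bool) (C : Finset Plane) (u : Plane) (l : ℕ × ℕ) : Prop :=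
  (∃ S, S.card = l.1 ∧ Good c P 1 κ C S u) ∧ (∃ S, S.card = l.2 ∧ Good c P (-1) κ C S u)

lemma Lab.anti {κ : Bool} {C C' : Finset Plane} {u : Plane} {l : ℕ × ℕ} (h : Lab c P κ C u l)
    (hC : C' ⊆ C) : Lab c P κ C' u l := by
  obtain ⟨⟨S, h1, h2⟩, ⟨T, h3, h4⟩⟩ := h
  exact ⟨⟨S, h1, h2.anti hC⟩, ⟨T, h3, h4.anti hC⟩⟩

lemma Lab.left {κ : Bool} {C : Finset Plane} {u : Plane} {l : ℕ × ℕ} (h : Lab c P κ C u l) {w : Plane}
    (hw : w ∈ C) : L u w := by
  obtain ⟨⟨S, _, h2⟩, _⟩ := h
  exact h2.left u h2.mem w hw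

lemma Lab.mem {κ : Bool} {C : Finset Plane} {u : Plane} {l : ℕ × ℕ} (h : Lab c P κ C u l) : u ∈ P := by
  obtain ⟨⟨S, _, h2⟩, _⟩ := h
  exact h2.sub h2.mem

open Classical in
/-- the labels of `D` whose point `U l` sees `w` above `v` -/
noncomputable def H (D : Finset (ℕ × ℕ)) (U : ℕ × ℕ → Plane) (v w : Plane) : Finset (ℕ × ℕ) :=
  D.filter (fun l => 0 < det (U l) v w)

/-- new first coordinate -/
noncomputable def α (D : Finset (ℕ × ℕ)) (U : ℕ × ℕ → Plane) (v w : Plane) : ℕ :=
  1 + (H D U v w).sup Prod.fst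

/-- new second coordinate -/
noncomputable def β (D : Finset (ℕ × ℕ)) (U : ℕ × ℕ → Plane) (v w : Plane) : ℕ :=
  1 + (D \ H D U v w).sup Prod.snd

lemma α_mono {D : Finset (ℕ × ℕ)} {U : ℕ × ℕ → Plane} {v w w' : Plane} (h : H D U v w ⊆ H D U v w') :
    α D U v w ≤ α D U v w' := by
  unfold α
  exact Nat.add_le_add_left (Finset.sup_mono h) 1

lemma β_anti {D : Finset (ℕ × ℕ)} {U : ℕ × ℕ → Plane} {v w w' : Plane} (h : H D U v w ⊆ H D U v w') :
    β D U v w' ≤ β D U v w := by
  unfold β
  exact Nat.add_le_add_left (Finset.sup_mono (sdiff_subset_sdiff le_rfl h)) 1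

lemma not_mem_label {D : Finset (ℕ × ℕ)} {U : ℕ × ℕ → Plane} {v w : Plane} :
    (α D U v w, β D U v w) ∉ D := by
  intro hmem
  by_cases h : (α D U v w, β D U v w) ∈ H D U v w
  · have : α D U v w ≤ (H D U v w).sup Prod.fst := Finset.le_sup (f := Prod.fst) h
    unfold α at this
    omega
  · have h' : (α D U v w, β D U v w) ∈ D \ H D U v w := mem_sdiff.mpr ⟨hmem, h⟩
    have : β D U v w ≤ (D \ H D U v w).sup Prod.snd := Finset.le_sup (f := Prod.snd) h'
    unfold β at this
    omega

/-- turning around `v` gives nested sets -/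
lemma H_nested (hGP : GeneralPosition P) {κ : Bool} {C : Finset Plane} (hCP : C ⊆ P) {D : Finset (ℕ × ℕ)}
    {U : ℕ × ℕ → Plane} (hU : ∀ l ∈ D, Lab c P κ C (U l) l) {v w w' : Plane} (hv : v ∈ C) (hw : w ∈ C)
    (hw' : w' ∈ C) (hvw : L v w) (hvw' : L v w') :
    H D U v w ⊆ H D U v w' ∨ H D U v w' ⊆ H D U v w := by
  classical
  by_cases hne : w = w'
  · left; rw [hne]
  have hdet : det v w w' ≠ 0 := by
    intro h0
    exact hGP v (hCP hv) w (hCP hw) w' (hCP hw') (L_ne hvw) (L_ne hvw') hne
      (collinear_of_det (L_ne hvw) h0)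
  rcases lt_or_gt_of_ne hdet with h | h
  · right
    intro l hl
    unfold H at hl ⊢
    rw [mem_filter] at hl ⊢
    refine ⟨hl.1, ?_⟩
    have := turn (σ := 1) (Or.inl rfl) ((hU l hl.1).left hv) hvw' hvw (by simpa using hl.2)
      (by rw [det_swap]; linarith)
    simpa using this
  · left
    intro l hl
    unfold H at hl ⊢
    rw [mem_filter] at hl ⊢
    refine ⟨hl.1, ?_⟩
    have := turn (σ := 1) (Or.inl rfl) ((hU l hl.1).left hv) hvw hvw' (by simpa using hl.2)
      (by linarith)
    simpa using this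

lemma det_neg_of_not_mem (hGP : GeneralPosition P) {κ : Bool} {C : Finset Plane} (hCP : C ⊆ P)
    {D : Finset (ℕ × ℕ)} {U : ℕ × ℕ → Plane} (hU : ∀ l ∈ D, Lab c P κ C (U l) l) {v w : Plane}
    (hv : v ∈ C) (hw : w ∈ C) (hvw : L v w) {l : ℕ × ℕ} (hl : l ∈ D) (hn : l ∉ H D U v w) :
    0 < (-1 : ℝ) * det (U l) v w := by
  classical
  have h1 : ¬ 0 < det (U l) v w := by
    intro h
    apply hn
    unfold H
    rw [mem_filter]
    exact ⟨hl, h⟩
  have h2 : det (U l) v w ≠ 0 := by
    intro h0
    have huv := (hU l hl).left hv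
    exact hGP (U l) (hU l hl).mem v (hCP hv) w (hCP hw) (L_ne huv) (L_ne (L_trans huv hvw)) (L_ne hvw)
      (collinear_of_det (L_ne huv) h0)
  have h3 : det (U l) v w < 0 := lt_of_le_of_ne (not_lt.mp h1) h2
  linarith

/-- the label of the new point, with respect to a set of candidates on which the label is constant -/
lemma new_label (hGP : GeneralPosition P) {κ : Bool} {C C' : Finset Plane} (hCP : C ⊆ P) {D : Finset (ℕ × ℕ)}
    {U : ℕ × ℕ → Plane} (hU : ∀ l ∈ D, Lab c P κ C (U l) l) {v : Plane} (hv : v ∈ C) (hC : C' ⊆ C)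
    (hL : ∀ w ∈ C', L v w) (hc : ∀ w ∈ C', c s(v, w) = κ) (hne : C'.Nonempty) {a b : ℕ}
    (ha : ∀ w ∈ C', α D U v w = a) (hb : ∀ w ∈ C', β D U v w = b) : Lab c P κ C' v (a, b) := by
  classical
  constructor
  · obtain ⟨w0, hw0, hmin⟩ := C'.exists_min_image (fun w => (H D U v w).card) hne
    have hsub : ∀ w ∈ C', H D U v w0 ⊆ H D U v w := by
      intro w hw
      rcases H_nested hGP hCP hU hv (hC hw0) (hC hw) (hL w0 hw0) (hL w hw) with h | h
      · exact h
      · exact (Finset.eq_of_subset_of_card_le h (hmin w hw)).ge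
    have ha0 := ha w0 hw0
    rcases (H D U v w0).eq_empty_or_nonempty with he | hne'
    · refine ⟨{v}, ?_, Good.single (hCP hv) hL hc⟩
      unfold α at ha0
      rw [he] at ha0
      simp at ha0
      simp [← ha0]
    · obtain ⟨l, hl, hsup⟩ := Finset.exists_mem_eq_sup _ hne' Prod.fst
      have hlD : l ∈ D := by unfold H at hl; exact (mem_filter.mp hl).1
      obtain ⟨⟨S, hS, hG⟩, _⟩ := hU l hlD
      have := hG.extend (Or.inl rfl) hCP hv hC hL hc (by
        intro w hw
        have := hsub w hw hl
        unfold H at this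
        simpa using (mem_filter.mp this).2)
      refine ⟨insert v S, ?_, this.1⟩
      rw [card_insert_of_notMem this.2, hS]
      unfold α at ha0
      rw [hsup] at ha0
      change l.1 + 1 = a
      omega
  · obtain ⟨w0, hw0, hmax⟩ := C'.exists_max_image (fun w => (H D U v w).card) hne
    have hsub : ∀ w ∈ C', H D U v w ⊆ H D U v w0 := by
      intro w hw
      rcases H_nested hGP hCP hU hv (hC hw0) (hC hw) (hL w0 hw0) (hL w hw) with h | h
      · exact (Finset.eq_of_subset_of_card_le h (hmax w hw)).ge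
      · exact h
    have hb0 := hb w0 hw0
    rcases (D \ H D U v w0).eq_empty_or_nonempty with he | hne'
    · refine ⟨{v}, ?_, Good.single (hCP hv) hL hc⟩
      unfold β at hb0
      rw [he] at hb0
      simp at hb0
      simp [← hb0]
    · obtain ⟨l, hl, hsup⟩ := Finset.exists_mem_eq_sup _ hne' Prod.snd
      rw [mem_sdiff] at hl
      obtain ⟨_, ⟨S, hS, hG⟩⟩ := hU l hl.1
      have := hG.extend (Or.inr rfl) hCP hv hC hL hc (by
        intro w hw
        exact det_neg_of_not_mem hGP hCP hU hv (hC hw) (hL w hw) hl.1 (fun h => hl.2 (hsub w hw h)))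
      refine ⟨insert v S, ?_, this.1⟩
      rw [card_insert_of_notMem this.2, hS]
      unfold β at hb0
      rw [hsup] at hb0
      change l.2 + 1 = b
      omega

/-- the first coordinate of the new label is too large: done -/
lemma success_left {m : ℕ} (hm : 1 ≤ m) {κ : Bool} {C : Finset Plane} (hCP : C ⊆ P) {D : Finset (ℕ × ℕ)}
    (hD : D ⊆ Icc 1 m ×ˢ Icc 1 m) {U : ℕ × ℕ → Plane} (hU : ∀ l ∈ D, Lab c P κ C (U l) l) {v w : Plane}
    (hv : v ∈ C) (hw : w ∈ C) (hvw : L v w) (hc : c s(v, w) = κ) (h : m < α D U v w) :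
    HasMono (m + 2) P c := by
  classical
  unfold α at h
  have hne : (H D U v w).Nonempty := by
    rw [nonempty_iff_ne_empty]
    intro he
    rw [he] at h
    simp at h
    omega
  obtain ⟨l, hl, hsup⟩ := Finset.exists_mem_eq_sup _ hne Prod.fst
  have hlD : l ∈ D := by unfold H at hl; exact (mem_filter.mp hl).1
  have hdet : 0 < det (U l) v w := by unfold H at hl; exact (mem_filter.mp hl).2
  have hl1 := hD hlD
  rw [mem_product, mem_Icc, mem_Icc] at hl1
  obtain ⟨⟨S, hS, hG⟩, _⟩ := hU l hlD
  have := hG.extend (C' := {w}) (Or.inl rfl) hCP hv (by simpa using hw) (by simpa using hvw)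
    (by simpa using hc) (by simpa using hdet)
  refine this.1.hasMono (mem_singleton_self w) (by simpa using hCP hw) ?_
  rw [card_insert_of_notMem this.2, hS]
  omega

/-- the second coordinate of the new label is too large: done -/
lemma success_right (hGP : GeneralPosition P) {m : ℕ} (hm : 1 ≤ m) {κ : Bool} {C : Finset Plane} (hCP : C ⊆ P)
    {D : Finset (ℕ × ℕ)} (hD : D ⊆ Icc 1 m ×ˢ Icc 1 m) {U : ℕ × ℕ → Plane}
    (hU : ∀ l ∈ D, Lab c P κ C (U l) l) {v w : Plane}
    (hv : v ∈ C) (hw : w ∈ C) (hvw : L v w) (hc : c s(v, w) = κ) (h : m < β D U v w) :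
    HasMono (m + 2) P c := by
  classical
  unfold β at h
  have hne : (D \ H D U v w).Nonempty := by
    rw [nonempty_iff_ne_empty]
    intro he
    rw [he] at h
    simp at h
    omega
  obtain ⟨l, hl, hsup⟩ := Finset.exists_mem_eq_sup _ hne Prod.snd
  rw [mem_sdiff] at hl
  have hdet := det_neg_of_not_mem hGP hCP hU hv hw hvw hl.1 hl.2
  have hl1 := hD hl.1
  rw [mem_product, mem_Icc, mem_Icc] at hl1
  obtain ⟨_, ⟨S, hS, hG⟩⟩ := hU l hl.1
  have := hG.extend (C' := {w}) (Or.inr rfl) hCP hv (by simpa using hw) (by simpa using hvw)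
    (by simpa using hc) (by simpa using hdet)
  refine this.1.hasMono (mem_singleton_self w) (by simpa using hCP hw) ?_
  rw [card_insert_of_notMem this.2, hS]
  omega

/-- the largest number of candidates without success, `k` labels being unused -/
def F (K : ℕ) : ℕ → ℕ
  | 0 => 1
  | k + 1 => 1 + K * F K k

lemma F_pos (K k : ℕ) : 1 ≤ F K k := by
  cases k with
  | zero => exact le_rfl
  | succ k => unfold F; omega

lemma F_lt {K : ℕ} (hK : 2 ≤ K) (k : ℕ) : F K k < K ^ (k + 1) := by
  induction k with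
  | zero => unfold F; simpa using (by omega : 1 < K)
  | succ k ih =>
    unfold F
    have h1 : K * (F K k + 1) ≤ K * K ^ (k + 1) := Nat.mul_le_mul_left K ih
    have h2 : K ^ (k + 1 + 1) = K * K ^ (k + 1) := by ring
    rw [h2]
    have h3 : K * (F K k + 1) = K * F K k + K := by ring
    omega

theorem main (hGP : GeneralPosition P) {m : ℕ} (hm : 1 ≤ m) (k : ℕ) :
    ∀ (D : Bool → Finset (ℕ × ℕ)) (U : Bool → ℕ × ℕ → Plane) (C : Finset Plane), C ⊆ P →
      (∀ κ, D κ ⊆ Icc 1 m ×ˢ Icc 1 m) → (∀ κ, ∀ l ∈ D κ, Lab c P κ C (U κ l) l) →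
      (D true).card + (D false).card + k = 2 * m ^ 2 → F (2 * (2 * m - 1)) k < C.card →
      HasMono (m + 2) P c := by
  classical
  induction k with
  | zero =>
    intro D U C hCP hD hU hcard hC
    obtain ⟨v, hv, hmin⟩ := exists_Lmin C (card_pos.mp (by omega))
    have hne : (C.erase v).Nonempty := by
      rw [← card_pos, card_erase_of_mem hv]
      unfold F at hC
      omega
    obtain ⟨w, hw⟩ := hne
    rw [mem_erase] at hw
    have hvw := hmin w hw.2 hw.1
    by_contra hno
    have ha : α (D (c s(v, w))) (U (c s(v, w))) v w ≤ m := by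
      by_contra hcon
      exact hno (success_left hm hCP (hD _) (hU _) hv hw.2 hvw rfl (not_le.mp hcon))
    have hb : β (D (c s(v, w))) (U (c s(v, w))) v w ≤ m := by
      by_contra hcon
      exact hno (success_right hGP hm hCP (hD _) (hU _) hv hw.2 hvw rfl (not_le.mp hcon))
    have ha1 : 1 ≤ α (D (c s(v, w))) (U (c s(v, w))) v w := by unfold α; omega
    have hb1 : 1 ≤ β (D (c s(v, w))) (U (c s(v, w))) v w := by unfold β; omega
    have hfull : ∀ κ, D κ = Icc 1 m ×ˢ Icc 1 m := by
      have hcI : (Icc 1 m ×ˢ Icc 1 m : Finset (ℕ × ℕ)).card = m ^ 2 := by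
        rw [card_product, Nat.card_Icc]
        simp [sq]
      have h1 := card_le_card (hD true)
      have h2 := card_le_card (hD false)
      rw [hcI] at h1 h2
      intro κ
      apply eq_of_subset_of_card_le (hD κ)
      rw [hcI]
      cases κ <;> omega
    have hmem : (α (D (c s(v, w))) (U (c s(v, w))) v w, β (D (c s(v, w))) (U (c s(v, w))) v w) ∈
        (Icc 1 m ×ˢ Icc 1 m : Finset (ℕ × ℕ)) := by
      rw [mem_product, mem_Icc, mem_Icc]
      exact ⟨⟨ha1, ha⟩, ⟨hb1, hb⟩⟩
    exact not_mem_label ((hfull (c s(v, w))).ge hmem)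
  | succ k ih =>
    intro D U C hCP hD hU hcard hC
    obtain ⟨v, hv, hmin⟩ := exists_Lmin C (card_pos.mp (by omega))
    by_contra hno
    have hvC : ∀ w ∈ C.erase v, L v w := fun w hw => hmin w (mem_erase.mp hw).2 (mem_erase.mp hw).1
    have ha : ∀ w ∈ C.erase v, α (D (c s(v, w))) (U (c s(v, w))) v w ≤ m := by
      intro w hw
      by_contra hcon
      exact hno (success_left hm hCP (hD _) (hU _) hv (mem_erase.mp hw).2 (hvC w hw) rfl (not_le.mp hcon))
    have hb : ∀ w ∈ C.erase v, β (D (c s(v, w))) (U (c s(v, w))) v w ≤ m := by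
      intro w hw
      by_contra hcon
      exact hno (success_right hGP hm hCP (hD _) (hU _) hv (mem_erase.mp hw).2 (hvC w hw) rfl
        (not_le.mp hcon))
    have ha1 : ∀ w, 1 ≤ α (D (c s(v, w))) (U (c s(v, w))) v w := by intro w; unfold α; omega
    have hb1 : ∀ w, 1 ≤ β (D (c s(v, w))) (U (c s(v, w))) v w := by intro w; unfold β; omega
    set f : Plane → Bool × ℕ := fun w => (c s(v, w),
      α (D (c s(v, w))) (U (c s(v, w))) v w + m - β (D (c s(v, w))) (U (c s(v, w))) v w) with hf
    have hmaps : ∀ w ∈ C.erase v, f w ∈ (univ : Finset Bool) ×ˢ Icc 1 (2 * m - 1) := by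
      intro w hw
      rw [mem_product, mem_Icc]
      have h1 := ha w hw
      have h2 := hb w hw
      have h3 := ha1 w
      have h4 := hb1 w
      refine ⟨mem_univ _, ?_, ?_⟩
      · change 1 ≤ α _ _ _ _ + m - β _ _ _ _
        omega
      · change α _ _ _ _ + m - β _ _ _ _ ≤ 2 * m - 1
        omega
    have hcardT : ((univ : Finset Bool) ×ˢ Icc 1 (2 * m - 1)).card = 2 * (2 * m - 1) := by
      rw [card_product, Nat.card_Icc]
      simp
    have hcardC : (C.erase v).card = C.card - 1 := card_erase_of_mem hv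
    have hlt : ((univ : Finset Bool) ×ˢ Icc 1 (2 * m - 1)).card * F (2 * (2 * m - 1)) k < (C.erase v).card := by
      rw [hcardT, hcardC]
      unfold F at hC
      omega
    obtain ⟨y, _, hy⟩ := exists_lt_card_fiber_of_mul_lt_card_of_maps_to hmaps hlt
    set C' := (C.erase v).filter (fun w => f w = y) with hC'
    have hC'C : C' ⊆ C := (filter_subset _ _).trans (erase_subset _ _)
    have hne : C'.Nonempty := card_pos.mp (lt_of_le_of_lt (Nat.zero_le _) hy)
    have hL' : ∀ w ∈ C', L v w := fun w hw => hvC w (mem_filter.mp hw).1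
    have hcol : ∀ w ∈ C', c s(v, w) = y.1 := by
      intro w hw
      have := (mem_filter.mp hw).2
      rw [← this]
    have hdiff : ∀ w ∈ C', α (D y.1) (U y.1) v w + m - β (D y.1) (U y.1) v w = y.2 := by
      intro w hw
      have h1 := (mem_filter.mp hw).2
      have h2 := hcol w hw
      have h3 := congrArg Prod.snd h1
      simp only [hf] at h3
      rw [h2] at h3
      exact h3
    have ha' : ∀ w ∈ C', α (D y.1) (U y.1) v w ≤ m := by
      intro w hw
      have := ha w (mem_filter.mp hw).1
      rwa [hcol w hw] at this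
    have hb' : ∀ w ∈ C', β (D y.1) (U y.1) v w ≤ m := by
      intro w hw
      have := hb w (mem_filter.mp hw).1
      rwa [hcol w hw] at this
    obtain ⟨w1, hw1⟩ := hne
    have hboth : ∀ w ∈ C', α (D y.1) (U y.1) v w = α (D y.1) (U y.1) v w1 ∧
        β (D y.1) (U y.1) v w = β (D y.1) (U y.1) v w1 := by
      intro w hw
      have e1 := hdiff w hw
      have e2 := hdiff w1 hw1
      have b1 := hb' w hw
      have b2 := hb' w1 hw1
      rcases H_nested hGP hCP (hU y.1) hv (hC'C hw) (hC'C hw1) (hL' w hw) (hL' w1 hw1) with h | h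
      · have h1 := α_mono h
        have h2 := β_anti h
        omega
      · have h1 := α_mono h
        have h2 := β_anti h
        omega
    set a := α (D y.1) (U y.1) v w1 with hadef
    set b := β (D y.1) (U y.1) v w1 with hbdef
    have hlab : Lab c P y.1 C' v (a, b) :=
      new_label hGP hCP (hU y.1) hv hC'C hL' hcol ⟨w1, hw1⟩ (fun w hw => (hboth w hw).1)
        (fun w hw => (hboth w hw).2)
    have hnot : (a, b) ∉ D y.1 := not_mem_label
    have ha1' : 1 ≤ a := by rw [hadef]; unfold α; omega
    have hb1' : 1 ≤ b := by rw [hbdef]; unfold β; omega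
    apply hno
    refine ih (Function.update D y.1 (insert (a, b) (D y.1)))
      (Function.update U y.1 (Function.update (U y.1) (a, b) v)) C' (hC'C.trans hCP) ?_ ?_ ?_ hy
    · intro κ
      by_cases hκ : κ = y.1
      · subst hκ
        rw [Function.update_self]
        intro l hl
        rcases mem_insert.mp hl with rfl | hl
        · rw [mem_product, mem_Icc, mem_Icc]
          exact ⟨⟨ha1', ha' w1 hw1⟩, ⟨hb1', hb' w1 hw1⟩⟩
        · exact hD _ hl
      · rw [Function.update_of_ne hκ]
        exact hD κ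
    · intro κ l hl
      by_cases hκ : κ = y.1
      · subst hκ
        rw [Function.update_self] at hl ⊢
        by_cases hl' : l = (a, b)
        · subst hl'
          rw [Function.update_self]
          exact hlab
        · rw [Function.update_of_ne hl']
          rcases mem_insert.mp hl with h | h
          · exact absurd h hl'
          · exact (hU _ l h).anti hC'C
      · rw [Function.update_of_ne hκ] at hl ⊢
        exact (hU κ l hl).anti hC'C
    · have hins : (insert (a, b) (D y.1)).card = (D y.1).card + 1 := card_insert_of_notMem hnot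
      cases hy1 : y.1 with
      | true =>
        rw [hy1] at hins
        rw [Function.update_self, Function.update_of_ne (by decide), hins]
        omega
      | false =>
        rw [hy1] at hins
        rw [Function.update_self, Function.update_of_ne (by decide), hins]
        omega

theorem forces {p n : ℕ} (hp : 3 ≤ p) (hn : (4 * p - 10) ^ (2 * (p - 2) ^ 2 + 1) ≤ n) : Forces p n := by
  intro P hP hGP c
  obtain ⟨m, rfl⟩ : ∃ m, p = m + 2 := ⟨p - 2, by omega⟩
  have hm : 1 ≤ m := by omega
  have e1 : 4 * (m + 2) - 10 = 2 * (2 * m - 1) := by omega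
  have e2 : m + 2 - 2 = m := by omega
  rw [e1, e2] at hn
  refine main (c := c) hGP hm (2 * m ^ 2) (fun _ => ∅) (fun _ _ => 0) P subset_rfl ?_ ?_ ?_ ?_
  · intro κ; exact empty_subset _
  · intro κ l hl; exact absurd hl (notMem_empty _)
  · simp
  · rw [hP]
    exact lt_of_lt_of_le (F_lt (by omega) _) hn

/-- For `p ≥ 3`, `g(p)` is well defined and `log₂ g(p) ≤ (2 (p - 2) ^ 2 + 1) log₂ (4 p - 10)`. -/
theorem result : ∀ p : ℕ, 3 ≤ p →
    Forces p (g p) ∧ g p ≤ (4 * p - 10) ^ (2 * (p - 2) ^ 2 + 1) := by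
  intro p hp
  have h : Forces p ((4 * p - 10) ^ (2 * (p - 2) ^ 2 + 1)) := forces hp le_rfl
  exact ⟨Nat.sInf_mem (s := {n | Forces p n}) ⟨_, h⟩, Nat.sInf_le h⟩

end Pool.Agent.Results.MP_6c3374_co.PolynomialExponent
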